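import Pool.Agent.Lib_helper70.Ladder.Final

/-!
# Q1 is equivalent to a compactness principle for ladder systems
-/

set_option autoImplicit false

open Set Cardinal Topology Order Pool.Agent.Lib_helper70.Cor Pool.Agent.Lib_helper70.Lad
open Pool.Agent.Lib_helper89.Corson

namespace Pool.Agent.Lib_helper70.Superseded.LadderCharacterization

/-- The positive answer to Q1, word for word the frozen statement S12847. -/
def PositiveAnswer : Prop :=
  ∀ (X : Type) [TopologicalSpace X] [CompactSpace X] [T2Space X],
    (∀ A : Set X, Cardinal.mk A ≤ Cardinal.continuum →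
      ∃ (Γ : Type) (f : ↥(closure A) → (Γ → ℝ)),
        Topology.IsEmbedding f ∧ ∀ x, (Function.support (f x)).Countable) →
    ∃ (Γ : Type) (f : X → (Γ → ℝ)),
      Topology.IsEmbedding f ∧ ∀ x, (Function.support (f x)).Countable

theorem result : PositiveAnswer ↔ LadderCompactness := by
  constructor
  · intro hQ α _ _ _ hα S L hS hL
    by_contra hno
    push Not at hno
    obtain ⟨X, _, _, _, hsmall, hbad⟩ := counterexample_of_ladder hα hS hL hno
    exact hbad (hQ X fun A hA => (hsmall A hA).corson)
  · intro hLad X _ _ _ hX
    have h1 : SigmaOn (Set.univ : Set X) := by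
      refine sigma_of_ladder hLad fun A hA => ?_
      classical
      obtain ⟨Γ, f, hf, hs⟩ := hX A hA
      refine ⟨Γ, fun x => if h : x ∈ closure A then f ⟨x, h⟩ else 0, ?_, ?_, ?_⟩
      · rw [continuousOn_iff_continuous_domRestrict]
        convert hf.continuous using 1
        funext x
        simp [domRestrict]
      · intro x hx y hy hxy
        simp only [hx, hy, dif_pos] at hxy
        exact congrArg Subtype.val (hf.injective hxy)
      · intro x hx
        simp only [hx, dif_pos]
        exact hs ⟨x, hx⟩
    obtain ⟨Γ, φ, hc, hi, hs⟩ := h1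
    exact ⟨Γ, φ, ((continuousOn_univ.1 hc).isClosedEmbedding
      (fun x y h => hi (mem_univ x) (mem_univ y) h)).isEmbedding, fun x => hs x (mem_univ x)⟩

end Pool.Agent.Lib_helper70.Superseded.LadderCharacterization
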