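import Pool.Agent.Lib_helper70.Corson.AxR

/-!
# Q1 has a positive answer under a reflection principle, in particular under CH and Axiom R
-/

set_option autoImplicit false

open Set Cardinal Topology Pool.Agent.Lib_helper70.Cor

namespace Pool.Agent.Lib_helper70.Superseded.YesUnderAxiomR

/-- The positive answer to Q1, word for word the frozen statement S12847. -/
def PositiveAnswer : Prop :=
  ∀ (X : Type) [TopologicalSpace X] [CompactSpace X] [T2Space X],
    (∀ A : Set X, Cardinal.mk A ≤ Cardinal.continuum →
      ∃ (Γ : Type) (f : ↥(closure A) → (Γ → ℝ)),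
        Topology.IsEmbedding f ∧ ∀ x, (Function.support (f x)).Countable) →
    ∃ (Γ : Type) (f : X → (Γ → ℝ)),
      Topology.IsEmbedding f ∧ ∀ x, (Function.support (f x)).Countable

/-- Reflection of stationary sets of countable sets to sets of size at most continuum which are
closed under given `ω`-ary operations. -/
def ReflectsToContinuum : Prop :=
  ∀ (Z : Type) (S : Set (Set Z)), StatIn Set.univ S → ∀ h : ℕ → (ℕ → Z) → Z,
    ∃ Y : Set Z, #Y ≤ 𝔠 ∧ OmCld h Y ∧ StatIn Y S

theorem result :
    (ReflectsToContinuum → PositiveAnswer) ∧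
    ((𝔠 : Cardinal.{0}) = aleph 1 → AxiomR.{0} → ReflectsToContinuum) := by
  refine ⟨?_, fun hCH hR Z S hS h => refl_of_axiomR hCH hR Z S hS h⟩
  intro hR X _ _ _ hX
  have h1 : SigmaOn (Set.univ : Set X) := by
    refine sigma_of_reflection (κ := 𝔠) (fun S hS h => hR _ S hS h) fun A hA => ?_
    classical
    obtain ⟨Γ, f, hf, hs⟩ := hX A hA
    refine ⟨Γ, fun x => if h : x ∈ closure A then f ⟨x, h⟩ else 0, ?_, ?_, ?_⟩
    · rw [continuousOn_iff_continuous_domRestrict]
      convert hf.continuous using 1
      funext x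
      simp [domRestrict]
    · intro x hx y hy hxy
      simp only [hx, hy, dif_pos] at hxy
      exact congrArg Subtype.val (hf.injective hxy)
    · intro x hx
      simp only [hx, dif_pos]
      exact hs ⟨x, hx⟩
  obtain ⟨Γ, φ, hc, hi, hs⟩ := h1
  exact ⟨Γ, φ, ((continuousOn_univ.1 hc).isClosedEmbedding
    (fun x y h => hi (mem_univ x) (mem_univ y) h)).isEmbedding, fun x => hs x (mem_univ x)⟩

end Pool.Agent.Lib_helper70.Superseded.YesUnderAxiomR
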